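import Pool.Agent.H68.GCL.Targets

/-!
Row SBW of the board gcl_modules (`MP_d2582e_lc`): width, form and size of a substitution.
-/

set_option autoImplicit false

namespace Pool.Agent.H13.GCL

open Pool.Agent.H76.SW Pool.Agent.H68.GCL

theorem sbS_cast {A I : Type} {N : ℕ} (e : I ≃ Fin N) (g : I → RQ A) {c : ℕ} (s : Fin c → RQ A)
    (j : Fin c) : sbS e g s (Fin.castAdd N j) = s j := by
  unfold sbS
  exact Fin.addCases_left _

theorem sbS_nat {A I : Type} {N : ℕ} (e : I ≃ Fin N) (g : I → RQ A) {c : ℕ} (s : Fin c → RQ A)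
    (n : Fin N) : sbS e g s (Fin.natAdd c n) = g (e.symm n) := by
  unfold sbS
  exact Fin.addCases_right _

theorem sbS_all {A I : Type} {N : ℕ} (e : I ≃ Fin N) (g : I → RQ A) {c : ℕ} (s : Fin c → RQ A)
    (P : RQ A → Prop) (h1 : ∀ j, P (s j)) (h2 : ∀ n, P (g (e.symm n))) :
    ∀ x, P (sbS e g s x) := by
  intro x
  refine Fin.addCases (fun j => ?_) (fun n => ?_) x
  · rw [sbS_cast]
    exact h1 j
  · rw [sbS_nat]
    exact h2 n

theorem body_gc (hR : T_REL) {A I : Type} {N : ℕ} (e : I ≃ Fin N) {c : ℕ} (b : Body (A ⊕ I) c)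
    (S : Fin (c + N) → Prop) (hS : ∀ n, S (Fin.natAdd c n)) (hb : b.Simple) :
    BodyGC (sbB e b) S := by
  obtain ⟨hr, _⟩ := hR
  intro i
  rcases hb i with h | ⟨j, hj⟩
  · left
    intro w hw l hl
    obtain ⟨w0, hw0, rfl⟩ := (hr (bl e c) (b.aut i) w).1 hw
    obtain ⟨⟨l1, β⟩, hl0, rfl⟩ := List.mem_map.1 hl
    obtain ⟨a, ha⟩ := h w0 hw0 _ hl0
    have ha' : l1 = Sum.inl a := ha
    subst ha'
    rcases a with a | i'
    · exact Or.inl ⟨a, rfl⟩
    · exact Or.inr ⟨_, rfl, hS _⟩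
  · right
    refine ⟨Fin.castAdd N j, ?_⟩
    refine Set.ext fun w => ?_
    refine (hr (bl e c) (b.aut i) w).trans ⟨?_, fun hw => ?_⟩
    · rintro ⟨w0, hw0, rfl⟩
      rw [hj] at hw0
      have h1 : w0 = [(Sum.inr j, true)] := hw0
      rw [h1]
      rfl
    · have h1 : w = [(Sum.inr (Fin.castAdd N j), true)] := hw
      refine ⟨[(Sum.inr j, true)], ?_, ?_⟩
      · rw [hj]
        rfl
      · rw [h1]
        rfl

theorem size_le {A I : Type} {N : ℕ} (e : I ≃ Fin N) (g : I → RQ A) {c : ℕ}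
    (b : Body (A ⊕ I) c) (s : Fin c → RQ A) (z : Fin c → ℕ)
    (h : ∀ j, (s j).size ≤ z j * (1 + (N + ∑ n, (g (e.symm n)).size))) :
    1 + (sbB e b).size + ∑ x, (sbS e g s x).size ≤
      (1 + b.size + ∑ j, z j) * (1 + (N + ∑ n, (g (e.symm n)).size)) := by
  obtain ⟨G, hG⟩ : ∃ G, G = ∑ n, (g (e.symm n)).size := ⟨_, rfl⟩
  rw [← hG] at h ⊢
  have e1 : ∑ x, (sbS e g s x).size = ∑ j, (s j).size + G := by
    rw [Fin.sum_univ_add, hG]
    congr 1
    · exact Finset.sum_congr rfl fun j _ => by rw [sbS_cast]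
    · exact Finset.sum_congr rfl fun n _ => by rw [sbS_nat]
  have e2 : (sbB e b).size = b.size + N := by
    unfold Body.size sbB
    dsimp only
    omega
  have e3 : ∑ j, (s j).size ≤ (∑ j, z j) * (1 + (N + G)) := by
    rw [Finset.sum_mul]
    exact Finset.sum_le_sum fun j _ => h j
  rw [e1, e2]
  nlinarith [Nat.zero_le (b.size * (N + G))]

theorem pf_SBW (h1 : T_REL) : T_SBW := by
  intro A I N k e g hg
  have hW : ∀ ω : RQ (A ⊕ I), ω.Width k → (sb e g ω).Width k := by
    intro ω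
    induction ω with
    | cq c b sub p q ih =>
      intro h
      exact ⟨h.1, sbS_all e g _ (fun x => x.Width k) (fun j => ih j (h.2 j))
        fun n => (hg (e.symm n)).1⟩
    | union u sub ih =>
      intro h j
      exact ih j (h j)
  have hF : ∀ ω : RQ (A ⊕ I), ω.Simple → gc k (sb e g ω) := by
    intro ω
    induction ω with
    | cq c b sub p q ih =>
      intro h
      refine ⟨body_gc h1 e b _ (fun n => ?_) h.1,
        sbS_all e g _ (fun x => GW k x ∨ gc k x) (fun j => Or.inr (ih j (h.2 j)))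
          fun n => Or.inl (hg _)⟩
      rw [sbS_nat]
      exact hg _
    | union u sub ih =>
      intro h j
      exact ih j (h j)
  have hZ : ∀ ω : RQ (A ⊕ I),
      (sb e g ω).size ≤ ω.size * (1 + (N + ∑ n, (g (e.symm n)).size)) := by
    intro ω
    induction ω with
    | cq c b sub p q ih => exact size_le e g b _ _ ih
    | union u sub ih =>
      change 1 + u + ∑ j, (sb e g (sub j)).size ≤ (1 + u + ∑ j, (sub j).size) * _
      rw [add_mul, Finset.sum_mul]
      refine add_le_add ?_ (Finset.sum_le_sum fun j _ => ih j)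
      exact Nat.le_mul_of_pos_right _ (by omega)
  refine ⟨hW, hF, hZ, fun r t => ⟨?_, ?_, ?_⟩⟩
  · intro h
    exact ⟨h.1, sbS_all e g _ (fun x => x.Width k) (fun j => hW _ (h.2 j))
      fun n => (hg (e.symm n)).1⟩
  · intro h
    refine ⟨body_gc h1 e t.b _ (fun n => ?_) h.1,
      sbS_all e g _ (fun x => GW k x ∨ gc k x) (fun j => Or.inr (hF _ (h.2 j)))
        fun n => Or.inl (hg _)⟩
    have hs : (sbC e g t).sub (Fin.natAdd t.c n) = g (e.symm n) :=
      sbS_nat e g (fun j => sb e g (t.sub j)) n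
    rw [hs]
    exact hg _
  · exact size_le e g t.b _ _ fun j => hZ (t.sub j)

end Pool.Agent.H13.GCL
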